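import Mathlib

namespace Pool.Agent.Lib.MC86

open Finset ComplexConjugate

theorem sum_add_right {A M : Type} [AddGroup A] [Fintype A] [AddCommMonoid M] (f : A → M) (a : A) :
    ∑ z, f (z + a) = ∑ z, f z := Equiv.sum_comp (Equiv.addRight a) f

theorem sum_mul_left {H M : Type} [Group H] [Fintype H] [AddCommMonoid M] (f : H → M) (a : H) :
    ∑ z, f (a * z) = ∑ z, f z := Equiv.sum_comp (Equiv.mulLeft a) f

section fourier

variable {A : Type} [AddCommGroup A] [Fintype A]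

/-- Fourier coefficient of a real function -/
noncomputable def ft (u : A → ℝ) (ψ : AddChar A ℂ) : ℂ := ∑ z, (u z : ℂ) * ψ z

theorem ft_corr (u v : A → ℝ) (a : A) :
    ∑ ψ : AddChar A ℂ, ft u ψ * conj (ft v ψ) * ψ a =
      (Fintype.card A : ℂ) * ((∑ z, u z * v (z + a) : ℝ) : ℂ) := by
  classical
  have e1 : ∀ ψ : AddChar A ℂ, ft u ψ * conj (ft v ψ) * ψ a =
      ∑ z, ∑ y, (u z : ℂ) * (v y : ℂ) * ψ (z + a - y) := fun ψ => by
    rw [ft, ft, map_sum, sum_mul_sum, sum_mul]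
    refine sum_congr rfl fun z _ => ?_
    rw [sum_mul]
    refine sum_congr rfl fun y _ => ?_
    rw [map_mul, Complex.conj_ofReal, sub_eq_add_neg, AddChar.map_add_eq_mul,
      AddChar.map_add_eq_mul, AddChar.map_neg_eq_conj]
    ring
  simp only [e1]
  rw [sum_comm, Complex.ofReal_sum, mul_sum]
  refine sum_congr rfl fun z _ => ?_
  rw [sum_comm]
  simp only [← mul_sum, AddChar.sum_apply_eq_ite]
  rw [sum_eq_single (z + a)]
  · simp [mul_comm]
  · intro y _ hy
    rw [if_neg (fun h => hy (sub_eq_zero.1 h).symm), mul_zero]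
  · intro h
    exact absurd (mem_univ _) h

theorem ft_pars (u : A → ℝ) :
    ∑ ψ : AddChar A ℂ, ‖ft u ψ‖ ^ 2 = Fintype.card A * ∑ z, u z ^ 2 := by
  have h := ft_corr u u 0
  simp only [AddChar.map_zero_eq_one, mul_one, add_zero, Complex.mul_conj, ← sq,
    Complex.normSq_eq_norm_sq] at h
  exact_mod_cast h

theorem line_lower {K : Type} [AddCommGroup K] [Fintype K] (e : K →+ A) (w : A → ℝ) :
    Fintype.card K * (∑ z, w z) ^ 2 ≤ Fintype.card A * ∑ z, ∑ t, w z * w (z + e t) := by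
  have hK : (0 : ℝ) < Fintype.card K := by exact_mod_cast Fintype.card_pos
  have h1 : ∑ z, ∑ t, w (z + e t) = Fintype.card K * ∑ z, w z := by
    rw [sum_comm, sum_congr rfl fun t _ => sum_add_right w (e t)]
    simp
  have h2 : ∑ z, (∑ t, w (z + e t)) ^ 2 = Fintype.card K * ∑ z, ∑ t, w z * w (z + e t) := by
    simp only [sq, sum_mul_sum]
    rw [sum_comm]
    have : ∀ s : K, ∑ z, ∑ t, w (z + e s) * w (z + e t) = ∑ z, ∑ t, w z * w (z + e t) :=
      fun s => by
        rw [← sum_add_right (fun z => ∑ t, w z * w (z + e t)) (e s)]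
        refine sum_congr rfl fun z _ => ?_
        rw [← sum_add_right (fun t => w (z + e s) * w (z + e t)) s]
        refine sum_congr rfl fun t _ => ?_
        rw [map_add, add_comm (e t), add_assoc]
    simp [this]
  have h3 := sq_sum_le_card_mul_sum_sq (s := univ) (f := fun z => ∑ t, w (z + e t))
  rw [h1, h2, card_univ] at h3
  refine le_of_mul_le_mul_left ?_ hK
  nlinarith [h3]

end fourier

theorem var_bound {J T : Type} [Fintype J] [DecidableEq J] [Group T] [Fintype T]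
    (g : J → T → ℂ) (h0 : ∀ j, ∑ t, g j t = 0) (c : ℝ) (hc : ∀ j t, ‖g j t‖ ≤ c) :
    ∑ h : J → T, ‖∑ j, g j (h j)‖ ^ 2 ≤ Fintype.card J * c ^ 2 * Fintype.card (J → T) := by
  have hT : (Fintype.card T : ℂ) ≠ 0 := by exact_mod_cast Fintype.card_ne_zero
  have cross : ∀ j k, j ≠ k → ∑ h : J → T, g j (h j) * conj (g k (h k)) = 0 := fun j k hjk => by
    have e1 : ∀ t : T, ∑ h : J → T, g j (h j) * conj (g k (h k)) =
        ∑ h : J → T, g j (h j * t) * conj (g k (h k)) := fun t => by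
      rw [← Equiv.sum_comp (Equiv.mulRight (Pi.mulSingle j t : J → T))
        fun h : J → T => g j (h j) * conj (g k (h k))]
      refine sum_congr rfl fun h _ => ?_
      simp [Pi.mulSingle_eq_of_ne hjk.symm]
    refine (mul_eq_zero.1 ?_).resolve_left hT
    rw [← nsmul_eq_mul, ← card_univ, ← sum_const, sum_congr rfl fun t _ => e1 t, sum_comm]
    refine sum_eq_zero fun h _ => ?_
    rw [← sum_mul, sum_mul_left (g j) (h j), h0, zero_mul]
  have e2 : ((∑ h : J → T, ‖∑ j, g j (h j)‖ ^ 2 : ℝ) : ℂ) =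
      ((∑ h : J → T, ∑ j, ‖g j (h j)‖ ^ 2 : ℝ) : ℂ) := by
    push_cast
    simp only [← Complex.mul_conj', map_sum, sum_mul_sum]
    rw [sum_comm, sum_comm (f := fun (h : J → T) j => g j (h j) * conj (g j (h j)))]
    refine sum_congr rfl fun j _ => ?_
    rw [sum_comm, sum_eq_single j (fun k _ hk => cross j k hk.symm)
      fun h => absurd (mem_univ _) h]
  rw [Complex.ofReal_injective e2]
  calc ∑ h : J → T, ∑ j, ‖g j (h j)‖ ^ 2 ≤ ∑ _h : J → T, ∑ _j : J, c ^ 2 :=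
        sum_le_sum fun h _ => sum_le_sum fun j _ =>
          pow_le_pow_left₀ (norm_nonneg _) (hc _ _) 2
    _ = _ := by simp only [sum_const, card_univ, nsmul_eq_mul]; ring

theorem cs_bound {H : Type} [Group H] [Fintype H] (f : H → ℂ) (m : H → H → ℂ) (C : ℝ)
    (hC : 0 ≤ C) (hm : ∀ η, ∑ h, ‖m η h‖ ^ 2 ≤ C ^ 2 * Fintype.card H) :
    ‖∑ η, ∑ h, f h * conj (f (h * η)) * m η h‖ ≤ C * Fintype.card H * ∑ h, ‖f h‖ ^ 2 := by
  have h1 : ‖∑ η, ∑ h, f h * conj (f (h * η)) * m η h‖ ≤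
      ∑ p : H × H, (‖f p.2‖ * ‖f (p.2 * p.1)‖) * ‖m p.1 p.2‖ := by
    rw [Fintype.sum_prod_type]
    refine (norm_sum_le _ _).trans (sum_le_sum fun η _ => (norm_sum_le _ _).trans
      (le_of_eq (sum_congr rfl fun h _ => ?_)))
    rw [norm_mul, norm_mul, Complex.norm_conj]
  have h2 := sum_mul_sq_le_sq_mul_sq (univ : Finset (H × H))
    (fun p => ‖f p.2‖ * ‖f (p.2 * p.1)‖) fun p => ‖m p.1 p.2‖
  have h3 : ∑ p : H × H, (‖f p.2‖ * ‖f (p.2 * p.1)‖) ^ 2 = (∑ h, ‖f h‖ ^ 2) ^ 2 := by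
    rw [Fintype.sum_prod_type_right, sq (∑ h, ‖f h‖ ^ 2), sum_mul_sum]
    refine sum_congr rfl fun h _ => ?_
    rw [← sum_mul_left (fun y => ‖f h‖ ^ 2 * ‖f y‖ ^ 2) h]
    exact sum_congr rfl fun η _ => by simp [mul_pow]
  have h4 : ∑ p : H × H, ‖m p.1 p.2‖ ^ 2 ≤ (C * Fintype.card H) ^ 2 := by
    rw [Fintype.sum_prod_type]
    refine (sum_le_sum fun η _ => hm η).trans (le_of_eq ?_)
    simp only [sum_const, card_univ, nsmul_eq_mul]
    ring
  refine h1.trans (abs_le_of_sq_le_sq' (h2.trans ?_) (by positivity)).2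
  rw [h3, mul_pow, mul_comm]
  exact mul_le_mul_of_nonneg_right h4 (sq_nonneg _)

theorem spec_bound {A J T : Type} [AddCommGroup A] [Fintype A] [Fintype J] [DecidableEq J]
    [Group T] [Fintype T] (r : ℕ) (hr : Fintype.card J = r ^ 2)
    (a : (J → T) → J → T → A) (u : A → (J → T) → ℝ)
    (hu : ∀ η j h z, u z h * u (z + a η j (h j)) (h * η) = 0) :
    ∑ η, ∑ h, ∑ j, ∑ t, ∑ z, u z h * u (z + a η j t) (h * η) ≤
      2 * r * Fintype.card T * Fintype.card (J → T) * ∑ h, ∑ z, u z h ^ 2 := by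
  have hA : (0 : ℝ) < Fintype.card A := by exact_mod_cast Fintype.card_pos
  let g : AddChar A ℂ → (J → T) → J → T → ℂ := fun ψ η j s =>
    ∑ t, ψ (a η j t) - Fintype.card T * ψ (a η j s)
  have g0 : ∀ ψ η j, ∑ s, g ψ η j s = 0 := fun ψ η j => by
    simp only [g, sum_sub_distrib, sum_const, card_univ, nsmul_eq_mul, ← mul_sum, sub_self]
  have gc : ∀ ψ η j s, ‖g ψ η j s‖ ≤ 2 * Fintype.card T := fun ψ η j s => by
    refine (norm_sub_le _ _).trans ?_
    have : ‖∑ t, ψ (a η j t)‖ ≤ Fintype.card T :=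
      (norm_sum_le _ _).trans (le_of_eq (by simp))
    rw [norm_mul, AddChar.norm_apply, Complex.norm_natCast]
    linarith
  let F : AddChar A ℂ → (J → T) → ℂ := fun ψ h => ft (fun z => u z h) ψ
  have key : (Fintype.card A : ℂ) *
      ((∑ η, ∑ h, ∑ j, ∑ t, ∑ z, u z h * u (z + a η j t) (h * η) : ℝ) : ℂ) =
      ∑ ψ, ∑ η, ∑ h, F ψ h * conj (F ψ (h * η)) * ∑ j, g ψ η j (h j) := by
    rw [sum_comm (f := fun ψ η => ∑ h, F ψ h * conj (F ψ (h * η)) * ∑ j, g ψ η j (h j)),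
      Complex.ofReal_sum, mul_sum]
    refine sum_congr rfl fun η _ => ?_
    rw [sum_comm (f := fun ψ h => F ψ h * conj (F ψ (h * η)) * ∑ j, g ψ η j (h j)),
      Complex.ofReal_sum, mul_sum]
    refine sum_congr rfl fun h _ => ?_
    have e0 : ∀ ψ, F ψ h * conj (F ψ (h * η)) * ∑ j, g ψ η j (h j) =
        ∑ j, F ψ h * conj (F ψ (h * η)) * g ψ η j (h j) := fun ψ => mul_sum _ _ _
    simp only [e0]
    rw [sum_comm (f := fun ψ j => F ψ h * conj (F ψ (h * η)) * g ψ η j (h j)),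
      Complex.ofReal_sum, mul_sum]
    refine sum_congr rfl fun j _ => ?_
    have e1 : ∀ ψ, F ψ h * conj (F ψ (h * η)) * g ψ η j (h j) =
        ∑ t, F ψ h * conj (F ψ (h * η)) * ψ (a η j t) -
          Fintype.card T * (F ψ h * conj (F ψ (h * η)) * ψ (a η j (h j))) := fun ψ => by
      rw [← mul_sum]
      simp only [g]
      ring
    simp only [e1]
    rw [sum_sub_distrib, ← mul_sum, sum_comm (s := (univ : Finset (AddChar A ℂ))), ft_corr,
      sum_eq_zero fun z _ => hu η j h z, Complex.ofReal_sum, mul_sum]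
    simp only [F, ft_corr]
    simp
  have b1 : ∀ ψ, ‖∑ η, ∑ h, F ψ h * conj (F ψ (h * η)) * ∑ j, g ψ η j (h j)‖ ≤
      (2 * r * Fintype.card T) * Fintype.card (J → T) * ∑ h, ‖F ψ h‖ ^ 2 := fun ψ =>
    cs_bound (F ψ) (fun η h => ∑ j, g ψ η j (h j)) _ (by positivity) fun η =>
      (var_bound (g ψ η) (g0 ψ η) _ (gc ψ η)).trans (le_of_eq (by rw [hr]; push_cast; ring))
  have b2 := (norm_sum_le _ _).trans (sum_le_sum fun ψ (_ : ψ ∈ univ) => b1 ψ)
  rw [← key, ← mul_sum, sum_comm (f := fun ψ h => ‖F ψ h‖ ^ 2)] at b2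
  simp only [F, ft_pars] at b2
  rw [← mul_sum, norm_mul, Complex.norm_natCast, Complex.norm_real, Real.norm_eq_abs] at b2
  refine (le_abs_self _).trans (le_of_mul_le_mul_left (b2.trans (le_of_eq ?_)) hA)
  ring

theorem arith {a n q r N O S m : ℝ} (ha : 0 < a) (hn : 0 < n) (hm : 0 ≤ m) (hN : 0 ≤ N)
    (h1 : N ^ 2 ≤ a * O) (h2 : O ^ 2 ≤ n ^ 2 * S)
    (h3 : r ^ 2 * (q * S - a * O) ≤ a * (2 * r * q * n * N)) (h4 : a * n ≤ m * N)
    (hq : 2 * m ^ 2 ≤ q) (hr : 4 * m ^ 3 < r) : False := by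
  have han : 0 < a * n := mul_pos ha hn
  have hm0 : 0 < m := lt_of_le_of_ne hm fun h => by rw [← h, zero_mul] at h4; linarith
  have hN0 : 0 < N := lt_of_le_of_ne hN fun h => by rw [← h, mul_zero] at h4; linarith
  have hq0 : 0 < q := lt_of_lt_of_le (by positivity) hq
  have hr0 : 0 < r := lt_trans (by positivity) hr
  have hO : 0 < O := (mul_pos_iff_of_pos_left ha).1 (lt_of_lt_of_le (by positivity) h1)
  have e1 : (a * n) ^ 2 ≤ (m * N) ^ 2 := pow_le_pow_left₀ han.le h4 2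
  have e2 : 2 * (a * n ^ 2) ≤ q * O := by
    refine le_of_mul_le_mul_left ?_ ha
    calc a * (2 * (a * n ^ 2)) = 2 * (a * n) ^ 2 := by ring
      _ ≤ 2 * m ^ 2 * N ^ 2 := by nlinarith
      _ ≤ q * (a * O) := mul_le_mul hq h1 (sq_nonneg _) hq0.le
      _ = _ := by ring
  have e3 : q * O ^ 2 ≤ 2 * (n ^ 2 * (q * S - a * O)) := by
    have := mul_le_mul_of_nonneg_left h2 hq0.le
    have := mul_le_mul_of_nonneg_right e2 hO.le
    nlinarith
  have e4 : r * O ^ 2 ≤ 4 * a * n ^ 3 * N := by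
    refine le_of_mul_le_mul_left ?_ (mul_pos hr0 hq0)
    calc r * q * (r * O ^ 2) = r ^ 2 * (q * O ^ 2) := by ring
      _ ≤ r ^ 2 * (2 * (n ^ 2 * (q * S - a * O))) := mul_le_mul_of_nonneg_left e3 (sq_nonneg _)
      _ = 2 * n ^ 2 * (r ^ 2 * (q * S - a * O)) := by ring
      _ ≤ 2 * n ^ 2 * (a * (2 * r * q * n * N)) := mul_le_mul_of_nonneg_left h3 (by positivity)
      _ = _ := by ring
  have e5 : r * N ^ 3 ≤ 4 * (a * n) ^ 3 := by
    refine le_of_mul_le_mul_left ?_ hN0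
    calc N * (r * N ^ 3) = r * (N ^ 2) ^ 2 := by ring
      _ ≤ r * (a * O) ^ 2 :=
        mul_le_mul_of_nonneg_left (pow_le_pow_left₀ (sq_nonneg _) h1 2) hr0.le
      _ = a ^ 2 * (r * O ^ 2) := by ring
      _ ≤ a ^ 2 * (4 * a * n ^ 3 * N) := mul_le_mul_of_nonneg_left e4 (sq_nonneg _)
      _ = _ := by ring
  have e6 : (a * n) ^ 3 ≤ (m * N) ^ 3 := pow_le_pow_left₀ han.le h4 3
  have e7 := mul_lt_mul_of_pos_right hr (pow_pos hN0 3)
  rw [mul_pow m] at e6
  nlinarith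

theorem density {K J : Type} [Field K] [Fintype K] [DecidableEq K] [Fintype J] [DecidableEq J]
    (m r : ℕ) (hr : Fintype.card J = r ^ 2) (hq : 2 * m ^ 2 ≤ Fintype.card K) (hmr : 4 * m ^ 3 < r)
    (u : ((J → Kˣ) × J → K) → (J → Kˣ) → ℝ) (h01 : ∀ z h, u z h = 0 ∨ u z h = 1)
    (hu : ∀ η j h z, u z h * u (z + Pi.single (η, j) (h j : K)) (h * η) = 0) :
    m * ∑ z, ∑ h, u z h < Fintype.card ((J → Kˣ) × J → K) * Fintype.card (J → Kˣ) := by
  by_contra hcon
  have u0 : ∀ z h, 0 ≤ u z h := fun z h => by rcases h01 z h with e | e <;> simp [e]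
  have u1 : ∀ z h, u z h ≤ 1 := fun z h => by rcases h01 z h with e | e <;> simp [e]
  have u2 : ∀ z h, u z h ^ 2 = u z h := fun z h => by
    rcases h01 z h with e | e <;> rw [e] <;> norm_num
  have hN : 0 ≤ ∑ z, ∑ h, u z h := sum_nonneg fun z _ => sum_nonneg fun h _ => u0 z h
  have hA : (0 : ℝ) < Fintype.card ((J → Kˣ) × J → K) := by exact_mod_cast Fintype.card_pos
  have hH : (0 : ℝ) < Fintype.card (J → Kˣ) := by exact_mod_cast Fintype.card_pos
  have sp := spec_bound r hr (fun η j (t : Kˣ) => (Pi.single (η, j) (t : K) : (J → Kˣ) × J → K))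
    u hu
  simp only [u2] at sp
  rw [sum_comm (f := fun h z => u z h)] at sp
  let W : (J → Kˣ) → (J → Kˣ) → ℝ := fun η h => ∑ z, u z h * u z (h * η)
  have low : ∀ η h j, Fintype.card K * W η h ^ 2 - Fintype.card ((J → Kˣ) × J → K) * W η h ≤
      Fintype.card ((J → Kˣ) × J → K) *
        ∑ t : Kˣ, ∑ z, u z h * u (z + Pi.single (η, j) (t : K)) (h * η) := fun η h j => by
    have l1 := line_lower (AddMonoidHom.single (fun _ : (J → Kˣ) × J => K) (η, j))
      fun z => u z h * u z (h * η)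
    rw [sub_le_iff_le_add, ← mul_add]
    refine l1.trans (mul_le_mul_of_nonneg_left ?_ hA.le)
    rw [sum_comm (s := (univ : Finset Kˣ)), ← sum_add_distrib]
    refine sum_le_sum fun z _ => ?_
    rw [← Equiv.sum_comp (Equiv.optionSubtypeNe (0 : K)), Fintype.sum_option,
      ← Equiv.sum_comp (unitsEquivNeZero (G₀ := K)), add_comm]
    refine add_le_add (sum_le_sum fun t _ => ?_) ?_
    · refine mul_le_mul (mul_le_of_le_one_right (u0 _ _) (u1 _ _))
        (mul_le_of_le_one_left (u0 _ _) (u1 _ _)) (mul_nonneg (u0 _ _) (u0 _ _)) (u0 _ _)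
    · simp only [Equiv.optionSubtypeNe_none, map_zero, add_zero]
      rw [← sq, mul_pow, u2, u2]
  refine arith (S := ∑ η, ∑ h, W η h ^ 2) (O := ∑ η, ∑ h, W η h) (q := Fintype.card K)
    (r := r) hA hH (Nat.cast_nonneg m) hN ?_ ?_ ?_ (not_lt.1 hcon) (by exact_mod_cast hq)
    (by exact_mod_cast hmr)
  · have e : ∑ η, ∑ h, W η h = ∑ z, (∑ h, u z h) ^ 2 := by
      rw [sum_comm]
      simp only [W, sq, sum_mul_sum]
      rw [sum_comm (f := fun z h => ∑ y, u z h * u z y)]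
      refine sum_congr rfl fun h _ => ?_
      rw [sum_comm]
      exact sum_congr rfl fun z _ => sum_mul_left (fun y => u z h * u z y) h
    rw [e, ← card_univ]
    exact sq_sum_le_card_mul_sum_sq
  · have e := sq_sum_le_card_mul_sum_sq (s := (univ : Finset ((J → Kˣ) × (J → Kˣ))))
      (f := fun p => W p.1 p.2)
    rw [Fintype.sum_prod_type, Fintype.sum_prod_type, card_univ, Fintype.card_prod] at e
    refine e.trans (le_of_eq ?_)
    push_cast
    ring
  · have hT : (Fintype.card Kˣ : ℝ) ≤ Fintype.card K := by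
      exact_mod_cast Fintype.card_le_of_injective _ Units.val_injective
    have e := sum_le_sum fun η (_ : η ∈ univ) => sum_le_sum fun h (_ : h ∈ univ) =>
      sum_le_sum fun j (_ : j ∈ univ) => low η h j
    simp only [sum_const, card_univ, nsmul_eq_mul, hr, ← mul_sum, sum_sub_distrib] at e
    push_cast at e
    refine e.trans (mul_le_mul_of_nonneg_left (sp.trans ?_) hA.le)
    gcongr

end Pool.Agent.Lib.MC86
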