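import Pool.Agent.Lib.MC86.Four
import Pool.Agent.Lib.MP_2f2576_co.Main

namespace Pool.Agent.Lib.MC86

open Finset Subgroup SimpleGraph Pool.Agent.Lib.MP_2f2576_co

section group

variable {K J : Type} [Field K]

/-- the torus acts on the coordinate with label `(η, j)` through its `j`-th coordinate -/
def act (K J : Type) [Field K] :
    (J → Kˣ) →* MulAut (Multiplicative ((J → Kˣ) × J → K)) where
  toFun h :=
    { toFun := fun z => Multiplicative.ofAdd fun i => (h i.2 : K) * z.toAdd i
      invFun := fun z => Multiplicative.ofAdd fun i => ((h i.2)⁻¹ : Kˣ) * z.toAdd i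
      left_inv := fun z => by ext i; simp
      right_inv := fun z => by ext i; simp
      map_mul' := fun z y => by ext i; simp [mul_add] }
  map_one' := by ext z i; simp
  map_mul' h g := by ext z i; simp [mul_assoc]

theorem act_apply (h : J → Kˣ) (z : Multiplicative ((J → Kˣ) × J → K)) (i : (J → Kˣ) × J) :
    (act K J h z).toAdd i = (h i.2 : K) * z.toAdd i := rfl

/-- the ambient group -/
abbrev Aff (K J : Type) [Field K] : Type :=
  SemidirectProduct (Multiplicative ((J → Kˣ) × J → K)) (J → Kˣ) (act K J)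

theorem semi_meta {N H : Type} [CommGroup N] [CommGroup H] (φ : H →* MulAut N) :
    derivedSeries (SemidirectProduct N H φ) 2 = ⊥ := by
  have h1 : derivedSeries (SemidirectProduct N H φ) 1 ≤
      (SemidirectProduct.inl : N →* SemidirectProduct N H φ).range := by
    rw [SemidirectProduct.range_inl_eq_ker_rightHom, derivedSeries_one]
    exact Abelianization.commutator_subset_ker _
  rw [eq_bot_iff, derivedSeries_succ]
  refine (commutator_mono h1 h1).trans (commutator_le.2 ?_)
  rintro _ ⟨a, rfl⟩ _ ⟨b, rfl⟩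
  rw [mem_bot, ← map_commutatorElement, commutatorElement_eq_one_iff_mul_comm.2 (mul_comm a b),
    map_one]

variable [DecidableEq K] [Fintype J] [DecidableEq J]

/-- the generators -/
def gen (i : (J → Kˣ) × J) : Aff K J := ⟨Multiplicative.ofAdd (Pi.single i 1), i.1⟩

theorem mul_gen (z : (J → Kˣ) × J → K) (h η : J → Kˣ) (j : J) :
    (⟨Multiplicative.ofAdd z, h⟩ : Aff K J) * gen (η, j) =
      ⟨Multiplicative.ofAdd (z + Pi.single (η, j) (h j : K)), h * η⟩ := by
  refine SemidirectProduct.ext ?_ rfl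
  ext i
  simp only [SemidirectProduct.mul_left, gen, toAdd_mul, toAdd_ofAdd, Pi.add_apply, act_apply]
  by_cases hi : i = (η, j)
  · subst hi
    simp
  · simp [Pi.single_eq_of_ne hi]

theorem indep_gen : Indep (Set.range (gen : (J → Kˣ) × J → Aff K J)) := by
  rintro _ ⟨i, rfl⟩ hmem
  let M : Subgroup (Aff K J) :=
    { carrier := {x | x.left.toAdd i = 0}
      one_mem' := rfl
      mul_mem' := fun {x y} hx hy => by
        simp only [Set.mem_ofPred_eq] at hx hy ⊢
        rw [SemidirectProduct.mul_left, toAdd_mul, Pi.add_apply, act_apply, hx, hy, mul_zero,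
          add_zero]
      inv_mem' := fun {x} hx => by
        simp only [Set.mem_ofPred_eq] at hx ⊢
        rw [SemidirectProduct.inv_left, act_apply, toAdd_inv, Pi.neg_apply, hx, neg_zero,
          mul_zero] }
  have h1 : closure (Set.range (gen : (J → Kˣ) × J → Aff K J) \ {gen i}) ≤ M := by
    rw [closure_le]
    rintro _ ⟨⟨k, rfl⟩, hk⟩
    exact Pi.single_eq_of_ne (M := fun _ => K) (fun h => hk (by rw [h]; rfl)) (1 : K)
  have h2 : (Pi.single i 1 : (J → Kˣ) × J → K) i = 0 := h1 hmem
  rw [Pi.single_eq_same] at h2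
  exact one_ne_zero h2

theorem aff_small [Fintype K] (m r : ℕ) (hr : Fintype.card J = r ^ 2)
    (hq : 2 * m ^ 2 ≤ Fintype.card K) (hmr : 4 * m ^ 3 < r) (I : Set (Aff K J))
    (hI : ∀ x ∈ I, ∀ i, x * gen i ∉ I) : m * Nat.card I < Nat.card (Aff K J) := by
  classical
  have h := density m r hr hq hmr
    (fun z h => if (⟨Multiplicative.ofAdd z, h⟩ : Aff K J) ∈ I then 1 else 0)
    (fun z h => by split_ifs <;> simp) fun η j h z => by
      rw [← mul_gen]
      by_cases hx : (⟨Multiplicative.ofAdd z, h⟩ : Aff K J) ∈ I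
      · rw [if_neg (hI _ hx _), mul_zero]
      · rw [if_neg hx, zero_mul]
  let e : ((J → Kˣ) × J → K) × (J → Kˣ) ≃ Aff K J :=
    (Multiplicative.ofAdd.prodCongr (Equiv.refl _)).trans SemidirectProduct.equivProd.symm
  rw [← Fintype.sum_prod_type', sum_boole, ← Nat.cast_mul, ← Nat.cast_mul, Nat.cast_lt,
    ← Fintype.card_prod, ← Fintype.card_subtype, ← Nat.card_eq_fintype_card,
    ← Nat.card_eq_fintype_card, Nat.card_congr e] at h
  rwa [← Nat.card_congr (e.subtypeEquiv (q := fun x => x ∈ I) fun _ => Iff.rfl)]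

end group

theorem small_sub {W : Type} [Group W] [Finite W] (S : Set W) (m : ℕ)
    (h : ∀ I : Set W, (∀ x ∈ I, ∀ s ∈ S, x * s ∉ I) → m * Nat.card I < Nat.card W)
    (I : Set (closure S)) (hI : ∀ x ∈ I, ∀ s : closure S, s.1 ∈ S → x * s ∉ I) :
    m * Nat.card I < Nat.card (closure S) := by
  have hm : ∀ x : W, ((x : W ⧸ closure S).out)⁻¹ * x ∈ closure S := fun x =>
    QuotientGroup.eq.1 (Quotient.out_eq _)
  let π : W → closure S := fun x => ⟨_, hm x⟩
  have hπ : ∀ x (s : closure S), π (x * s) = π x * s := fun x s => by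
    apply Subtype.ext
    change ((x * s : W) : W ⧸ closure S).out⁻¹ * (x * s) = ((x : W ⧸ closure S).out)⁻¹ * x * s
    rw [QuotientGroup.mk_mul_of_mem x s.2, mul_assoc]
  have h1 := h (π ⁻¹' I) fun x hx s hs hxs =>
    hI _ hx ⟨s, subset_closure hs⟩ hs (hπ x ⟨s, subset_closure hs⟩ ▸ hxs)
  have h2 : Nat.card (W ⧸ closure S) * Nat.card I ≤ Nat.card (π ⁻¹' I) := by
    rw [← Nat.card_prod]
    have hq : ∀ (c : W ⧸ closure S) (g : closure S), ((c.out * g : W) : W ⧸ closure S) = c :=
      fun c g => by rw [QuotientGroup.mk_mul_of_mem _ g.2]; exact Quotient.out_eq _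
    have hp : ∀ (c : W ⧸ closure S) (g : closure S), π (c.out * g) = g := fun c g => by
      apply Subtype.ext
      change ((c.out * g : W) : W ⧸ closure S).out⁻¹ * (c.out * g) = g
      rw [hq, inv_mul_cancel_left]
    refine Nat.card_le_card_of_injective
      (fun p => ⟨p.1.out * p.2.1, by rw [Set.mem_preimage, hp]; exact p.2.2⟩) fun p p' e => ?_
    have e1 : (p.1.out * p.2.1 : W) = p'.1.out * p'.2.1 := congrArg Subtype.val e
    refine Prod.ext ?_ (Subtype.ext ?_)
    · rw [← hq p.1 p.2.1, e1, hq]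
    · rw [← hp p.1 p.2.1, e1, hp]
  rw [card_eq_card_quotient_mul_card_subgroup (closure S)] at h1
  refine lt_of_mul_lt_mul_left (lt_of_le_of_lt ?_ h1) (Nat.zero_le _)
  rw [mul_left_comm]
  exact Nat.mul_le_mul_left _ h2

theorem chrom_of_indep {V : Type} [Finite V] (X : SimpleGraph V) (m : ℕ)
    (h : m * X.indepNum < Nat.card V) : (m : ℕ∞) < X.chromaticNumber := by
  classical
  by_contra hc
  rw [not_lt, chromaticNumber_le_iff_colorable] at hc
  obtain ⟨C⟩ := hc
  have := Fintype.ofFinite V
  refine absurd h (not_lt.2 ?_)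
  rw [Nat.card_eq_fintype_card, ← card_univ,
    card_eq_sum_card_fiberwise (f := C) (t := univ) fun _ _ => mem_univ _]
  refine (sum_le_card_nsmul _ _ X.indepNum fun c _ => IsIndepSet.card_le_indepNum ?_).trans
    (by simp)
  intro x hx y hy _ hxy
  simp only [coe_filter, mem_univ, true_and, Set.mem_ofPred_eq] at hx hy
  exact C.valid hxy (hx.trans hy.symm)

theorem sparse (m : ℕ) :
    ∃ (G : Type) (_ : Group G) (_ : Finite G) (S : Set G),
      derivedSeries G 2 = ⊥ ∧ closure S = ⊤ ∧ (∀ T : Set G, T ⊂ S → closure T ≠ ⊤) ∧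
      NoLonely (mulCayley S) ∧ NoPied (mulCayley S) ∧
      m * (mulCayley S).indepNum < Nat.card G ∧ (m : ℕ∞) < (mulCayley S).chromaticNumber := by
  classical
  obtain ⟨p, hp, hpp⟩ := Nat.exists_infinite_primes (2 * m ^ 2)
  have := Fact.mk hpp
  let J := Fin ((4 * m ^ 3 + 1) ^ 2)
  let S : Set (Aff (ZMod p) J) := Set.range gen
  have : Finite (Aff (ZMod p) J) := Finite.of_equiv _ SemidirectProduct.equivProd.symm
  have hS0 : Indep S := indep_gen
  have hS : Indep ((closure S).subtype ⁻¹' S) := fun s hs hmem => by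
    apply hS0 s.1 hs
    have h1 : closure (((closure S).subtype ⁻¹' S) \ {s}) ≤
        (closure (S \ {s.1})).comap (closure S).subtype := by
      rw [closure_le]
      rintro t ⟨ht, hts⟩
      exact subset_closure ⟨ht, fun h => hts (Subtype.ext h)⟩
    exact h1 hmem
  have hsm : m * (mulCayley ((closure S).subtype ⁻¹' S)).indepNum < Nat.card (closure S) := by
    obtain ⟨I, hI⟩ := (mulCayley ((closure S).subtype ⁻¹' S)).exists_isNIndepSet_indepNum
    have h := small_sub S m (fun I hI => aff_small m (4 * m ^ 3 + 1) (Fintype.card_fin _)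
      (by rwa [ZMod.card]) (Nat.lt_succ_self _) I fun x hx i => hI x hx _ ⟨i, rfl⟩) I
      fun x hx s hs hxs => by
        have hne : x ≠ x * s := fun e => hS s hs (by
          rw [left_eq_mul.1 e]; exact one_mem _)
        exact hI.isIndepSet hx hxs hne ((mulCayley_adj' _ _ _).2 ⟨hne, s, hs, Or.inl rfl⟩)
    rwa [Nat.card_coe_set_eq, Set.ncard_coe_finset, hI.card_eq] at h
  refine ⟨closure S, inferInstance, inferInstance, (closure S).subtype ⁻¹' S, ?_,
    closure_preimage_eq_top S, fun T hT htop => ?_, noLonely _ hS,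
    noPied_of_noLonely (noLonely _ hS), hsm, chrom_of_indep _ m hsm⟩
  · have h := map_derivedSeries_le_derivedSeries (closure S).subtype 2
    rwa [semi_meta, le_bot_iff, map_eq_bot_iff_of_injective _ (closure S).subtype_injective] at h
  · obtain ⟨s, hs, hsT⟩ := Set.exists_of_ssubset hT
    apply hS s hs
    have : closure T ≤ closure (((closure S).subtype ⁻¹' S) \ {s}) :=
      closure_mono fun t ht => ⟨hT.1 ht, fun h => hsT (Set.mem_singleton_iff.1 h ▸ ht)⟩
    exact this (htop ▸ mem_top s)

end Pool.Agent.Lib.MC86
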